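import Pool.Agent.Q62.JL.Part3

set_option autoImplicit false

namespace Q62.JL

open MeasureTheory Set Filter Topology

theorem vol_ball {V : ℝ} (hV : 0 ≤ V) : volume (ballOfVol V) = ENNReal.ofReal V := by
  unfold ballOfVol
  rw [EuclideanSpace.volume_ball_fin_three]
  have h0 : 0 ≤ 3 * V / (4 * Real.pi) := by positivity
  rw [← ENNReal.ofReal_pow (by positivity), ← ENNReal.ofReal_mul (by positivity)]
  congr 1
  rw [← Real.rpow_natCast, ← Real.rpow_mul h0]
  norm_num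
  field_simp

theorem vol_ball_toReal {V : ℝ} (hV : 0 ≤ V) : (volume (ballOfVol V)).toReal = V := by
  rw [vol_ball hV, ENNReal.toReal_ofReal hV]

theorem ball_fin (V : ℝ) : volume (ballOfVol V) ≠ ⊤ := measure_ball_lt_top.ne

theorem ball_meas (V : ℝ) : MeasurableSet (ballOfVol V) := measurableSet_ball

theorem ball_open (V : ℝ) : IsOpen (ballOfVol V) := Metric.isOpen_ball

theorem ball_bdd (V : ℝ) : Bornology.IsBounded (ballOfVol V) := Metric.isBounded_ball

theorem ball_conn {V : ℝ} (hV : 0 < V) : IsConnected (ballOfVol V) := by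
  refine ⟨⟨0, Metric.mem_ball_self ?_⟩, (convex_ball _ _).isPreconnected⟩
  exact Real.rpow_pos_of_pos (by positivity) _

theorem ball_mono {V V' : ℝ} (hV : 0 ≤ V) (h : V ≤ V') : ballOfVol V ⊆ ballOfVol V' := by
  unfold ballOfVol
  refine Metric.ball_subset_ball ?_
  refine Real.rpow_le_rpow (by positivity) ?_ (by norm_num)
  gcongr

/-- Stability with a given function `B`. -/
def Stab (v : E → ℝ) (B : ℝ → ℝ) : Prop :=
  ∀ ρ : ℝ, 0 < ρ → ∀ Λ : Set E, IsOpen Λ → IsConnected Λ → Bornology.IsBounded Λ →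
    ∀ N : ℕ, ρ * (volume Λ).toReal = N → ∀ X : Fin N → E, (∀ i, X i ∈ Λ) →
      Function.Injective X → -(B ρ * N) ≤ energy v ρ Λ X

theorem stab_ball {v : E → ℝ} {B : ℝ → ℝ} (hB : Stab v B) {V : ℝ} (hV : 0 < V) {N : ℕ}
    (hN : 0 < N) (X : Fin N → E) (hX : ∀ i, X i ∈ ballOfVol V) (hX' : Function.Injective X) :
    -(B ((N : ℝ) / V) * N) ≤ energy v ((N : ℝ) / V) (ballOfVol V) X := by
  have hN' : (0 : ℝ) < N := Nat.cast_pos.mpr hN
  refine hB _ (by positivity) _ (ball_open V) (ball_conn hV) (ball_bdd V) N ?_ X hX hX'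
  rw [vol_ball_toReal hV.le]
  field_simp

/-- The logarithm of the partition function at neutrality. -/
noncomputable def LZ (v : E → ℝ) (β V : ℝ) (N : ℕ) : ℝ :=
  Real.log (partFn v β ((N : ℝ) / V) (ballOfVol V) N)

theorem vol_ne_zero {V : ℝ} (hV : 0 < V) : volume (ballOfVol V) ≠ 0 := by
  rw [vol_ball hV.le]
  simpa using hV

theorem II_ball_pos {v : E → ℝ} (hvm : AEStronglyMeasurable v volume) {B : ℝ → ℝ} (hB : Stab v B) {β : ℝ}
    (hβ : 0 < β) {V : ℝ} (hV : 0 < V) {N : ℕ} (hN : 0 < N) :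
    0 < II v β ((N : ℝ) / V) (ballOfVol V) N :=
  II_pos hvm hβ (ball_meas V) (ball_fin V) (vol_ne_zero hV) (stab_ball hB hV hN)

theorem LZ_eq {v : E → ℝ} (hvm : AEStronglyMeasurable v volume) {B : ℝ → ℝ} (hB : Stab v B) {β : ℝ}
    (hβ : 0 < β) {V : ℝ} (hV : 0 < V) {N : ℕ} (hN : 0 < N) :
    LZ v β V N = Real.log (II v β ((N : ℝ) / V) (ballOfVol V) N) - Real.log N.factorial := by
  unfold LZ
  rw [partFn_eq, Real.log_mul (by positivity) (II_ball_pos hvm hB hβ hV hN).ne', Real.log_inv]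
  ring

theorem E0_bound {V : ℝ} (hV : 1 ≤ V) :
    (∫ x in ballOfVol V, phi (ballOfVol V) x) / (2 * V ^ 2) ≤ CK 1 + 1 := by
  have hV0 : 0 < V := by linarith
  have h1 := int_phi_le (ball_fin V) (ball_fin V) one_pos
  rw [vol_ball_toReal hV0.le, div_one] at h1
  rw [div_le_iff₀ (by positivity)]
  have h2 := CK_nonneg 1
  have h3 : V * (CK 1 + V) ≤ (CK 1 + 1) * V ^ 2 := by nlinarith [mul_nonneg h2 hV0.le]
  have h4 : 0 ≤ (CK 1 + 1) * V ^ 2 := by positivity
  linarith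

/-- The constant. -/
noncomputable def KK (v : E → ℝ) (β a b M : ℝ) : ℝ :=
  |Real.log a| + |Real.log b| + β * (b * (∫ x, |v x|) + (2 * M + (CK 1 + 1)))

theorem abs_log_le {a b x : ℝ} (ha : 0 < a) (h1 : a ≤ x) (h2 : x ≤ b) :
    |Real.log x| ≤ |Real.log a| + |Real.log b| := by
  have h3 : Real.log a ≤ Real.log x := Real.log_le_log ha h1
  have h4 : Real.log x ≤ Real.log b := Real.log_le_log (ha.trans_le h1) h2
  rw [abs_le]
  have := neg_abs_le (Real.log a)
  have := le_abs_self (Real.log b)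
  have := abs_nonneg (Real.log a)
  have := abs_nonneg (Real.log b)
  constructor <;> linarith

theorem KK_nonneg {v : E → ℝ} {β a b M : ℝ} (hβ : 0 < β) (hb : 0 ≤ b) (hM : 0 ≤ M) :
    0 ≤ KK v β a b M := by
  unfold KK
  have h1 : 0 ≤ ∫ x, |v x| := integral_nonneg fun _ => abs_nonneg _
  have h2 := CK_nonneg 1
  positivity

theorem LZ_step {v : E → ℝ} (hv : ∀ x, v (-x) = v x) (hvm : AEStronglyMeasurable v volume) (hvi : Integrable v)
    {B : ℝ → ℝ} (hB : Stab v B) {β : ℝ} (hβ : 0 < β) {a b M : ℝ} (ha : 0 < a) (hM : 0 ≤ M)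
    (hBM : ∀ x, a ≤ x → x ≤ b → |B x| ≤ M) {V : ℝ} (hV : 1 ≤ V) {N : ℕ} (hN : 0 < N)
    (h1 : a ≤ (N : ℝ) / V) (h2 : ((N : ℝ) + 1) / V ≤ b) :
    |LZ v β V (N + 1) - LZ v β V N| ≤ KK v β a b M := by
  have hV0 : 0 < V := by linarith
  have hNr : (0 : ℝ) < N := Nat.cast_pos.mpr hN
  have h12 : (N : ℝ) / V ≤ ((N : ℝ) + 1) / V := by gcongr; linarith
  have hs1 := stab_ball hB hV0 hN
  have hs2 : ∀ X : Fin (N + 1) → E, (∀ i, X i ∈ ballOfVol V) → Function.Injective X →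
      -(B (((N : ℝ) + 1) / V) * ((N : ℝ) + 1)) ≤
        energy v (((N : ℝ) + 1) / V) (ballOfVol V) X := by
    intro X hX hX'
    have := stab_ball hB hV0 (Nat.succ_pos N) X hX hX'
    push_cast at this
    exact this
  have hp1 := II_ball_pos hvm hB hβ hV0 hN
  have hp2 := II_ball_pos hvm hB hβ hV0 (Nat.succ_pos N)
  have e1 := LZ_eq hvm hB hβ hV0 hN
  have e2 := LZ_eq hvm hB hβ hV0 (Nat.succ_pos N)
  simp only [Nat.succ_eq_add_one] at hp2 e2
  push_cast at hp2 e2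
  have hadd := II_add hv hvm hvi hβ (ball_meas V) (ball_fin V) (vol_ball_toReal hV0.le) hV0 hs1 hs2
  have hrem := II_remove hv hvm hβ (ball_meas V) (ball_fin V) (vol_ball_toReal hV0.le) hV0 hs1 hs2
  have hfac : Real.log ((N + 1).factorial : ℝ) = Real.log ((N : ℝ) + 1) +
      Real.log (N.factorial : ℝ) := by
    rw [Nat.factorial_succ]
    push_cast
    rw [Real.log_mul (by positivity) (by positivity)]
  set I1 := II v β ((N : ℝ) / V) (ballOfVol V) N
  set I2 := II v β (((N : ℝ) + 1) / V) (ballOfVol V) (N + 1)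
  set nv := ∫ x, |v x|
  have hnv : 0 ≤ nv := integral_nonneg fun _ => abs_nonneg _
  have hE := E0_bound hV
  set E0 := ∫ x in ballOfVol V, phi (ballOfVol V) x
  have hadd' := Real.log_le_log (by positivity) hadd
  rw [Real.log_mul (by positivity) hp1.ne', Real.log_mul (by positivity) (Real.exp_pos _).ne',
    Real.log_exp] at hadd'
  have hrem' := Real.log_le_log (by positivity) hrem
  rw [Real.log_mul (Real.exp_pos _).ne' hp2.ne', Real.log_exp,
    Real.log_mul (by positivity) hp1.ne'] at hrem'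
  have hlog : Real.log (((N : ℝ) + 1) / V) = Real.log ((N : ℝ) + 1) - Real.log V :=
    Real.log_div (by positivity) (by positivity)
  have hl := abs_log_le ha (h1.trans h12) h2
  rw [abs_le] at hl
  have hBB := hBM _ (h1.trans h12) h2
  rw [abs_le] at hBB
  have hb1 : (N : ℝ) / V * nv ≤ b * nv := mul_le_mul_of_nonneg_right (h12.trans h2) hnv
  have hb2 : 0 ≤ (N : ℝ) / V * nv := by positivity
  have hCK := CK_nonneg 1
  have t1 := mul_le_mul_of_nonneg_left hb1 hβ.le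
  have t2 : β * (2 * B (((N : ℝ) + 1) / V) + E0 / (2 * V ^ 2)) ≤ β * (2 * M + (CK 1 + 1)) := by
    refine mul_le_mul_of_nonneg_left ?_ hβ.le
    linarith [hBB.2]
  have t3 : 0 ≤ β * (2 * M + (CK 1 + 1)) := by positivity
  have t4 : 0 ≤ β * (b * nv) := mul_nonneg hβ.le (hb2.trans hb1)
  have hKK : KK v β a b M = |Real.log a| + |Real.log b| + (β * (b * nv) +
      β * (2 * M + (CK 1 + 1))) := by
    unfold KK
    ring
  rw [e1, e2, hfac, hKK, abs_le]
  constructor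
  · linarith [hl.1, hl.2]
  · linarith [hl.1, hl.2]

theorem LZ_chain {v : E → ℝ} (hv : ∀ x, v (-x) = v x) (hvm : AEStronglyMeasurable v volume) (hvi : Integrable v)
    {B : ℝ → ℝ} (hB : Stab v B) {β : ℝ} (hβ : 0 < β) {a b M : ℝ} (ha : 0 < a) (hM : 0 ≤ M)
    (hBM : ∀ x, a ≤ x → x ≤ b → |B x| ≤ M) {V : ℝ} (hV : 1 ≤ V) {N : ℕ}
    (h1 : a ≤ (N : ℝ) / V) (N' : ℕ) (hNN : N ≤ N') (h2 : (N' : ℝ) / V ≤ b) :
    |LZ v β V N' - LZ v β V N| ≤ KK v β a b M * ((N' : ℝ) - N) := by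
  have hV0 : 0 < V := by linarith
  have hN : 0 < N := by
    rcases Nat.eq_zero_or_pos N with h | h
    · rw [h] at h1
      simp at h1
      linarith
    · exact h
  induction N', hNN using Nat.le_induction with
  | base => simp
  | succ n hn ih =>
    have hle : (n : ℝ) / V ≤ ((n + 1 : ℕ) : ℝ) / V := by
      push_cast
      gcongr
      linarith
    have hlow : a ≤ (n : ℝ) / V := by
      refine h1.trans ?_
      gcongr
    have h3 := ih (hle.trans h2)
    have h4 := LZ_step hv hvm hvi hB hβ ha hM hBM hV (hN.trans_le hn) hlow (by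
      push_cast at h2
      exact h2)
    have h5 : LZ v β V (n + 1) - LZ v β V N =
        (LZ v β V (n + 1) - LZ v β V n) + (LZ v β V n - LZ v β V N) := by ring
    rw [h5]
    refine (abs_add_le _ _).trans ?_
    push_cast
    linarith

theorem LZ_chain' {v : E → ℝ} (hv : ∀ x, v (-x) = v x) (hvm : AEStronglyMeasurable v volume) (hvi : Integrable v)
    {B : ℝ → ℝ} (hB : Stab v B) {β : ℝ} (hβ : 0 < β) {a b M : ℝ} (ha : 0 < a) (hM : 0 ≤ M)
    (hBM : ∀ x, a ≤ x → x ≤ b → |B x| ≤ M) {V : ℝ} (hV : 1 ≤ V) {N N' : ℕ}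
    (h1 : a ≤ (N : ℝ) / V) (h1' : (N : ℝ) / V ≤ b) (h2 : a ≤ (N' : ℝ) / V)
    (h2' : (N' : ℝ) / V ≤ b) :
    |LZ v β V N' - LZ v β V N| ≤ KK v β a b M * |(N' : ℝ) - N| := by
  rcases le_total N N' with h | h
  · have := LZ_chain hv hvm hvi hB hβ ha hM hBM hV h1 N' h h2'
    rwa [abs_of_nonneg (a := (N' : ℝ) - N)]
    have : (N : ℝ) ≤ N' := Nat.cast_le.mpr h
    linarith
  · have := LZ_chain hv hvm hvi hB hβ ha hM hBM hV h2 N h h1'
    rw [abs_sub_comm, abs_sub_comm (N' : ℝ)]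
    rwa [abs_of_nonneg (a := (N : ℝ) - N')]
    have : (N' : ℝ) ≤ N := Nat.cast_le.mpr h
    linarith

theorem LZ_mismatch {v : E → ℝ} (hvm : AEStronglyMeasurable v volume) {B : ℝ → ℝ} (hB : Stab v B) {β : ℝ}
    (hβ : 0 < β) {V V' : ℝ} (hV : 0 < V) (hVV : V ≤ V') {N : ℕ} (hN : 0 < N) {L : ℝ}
    (hL : 0 < L) :
    LZ v β V N - β * (2 * (N : ℝ) ^ 2 * (V' - V) * (CK L + V' / L) / V ^ 2) ≤ LZ v β V' N := by
  have hV' : 0 < V' := hV.trans_le hVV
  have hp1 := II_ball_pos hvm hB hβ hV hN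
  have hp2 := II_ball_pos hvm hB hβ hV' hN
  rw [LZ_eq hvm hB hβ hV hN, LZ_eq hvm hB hβ hV' hN]
  have hS : ∀ x, phi (ballOfVol V') x ≤ CK L + V' / L := by
    intro x
    have := phi_le (ball_fin V') hL x
    rwa [vol_ball_toReal hV'.le] at this
  have h := II_mismatch hvm hβ (ball_mono hV.le hVV) (ball_meas V) (ball_meas V') (ball_fin V')
    (vol_ball_toReal hV.le) (vol_ball_toReal hV'.le) hV hS (stab_ball hB hV hN)
    (stab_ball hB hV' hN)
  have h' := Real.log_le_log (by positivity) h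
  rw [Real.log_mul (Real.exp_pos _).ne' hp1.ne', Real.log_exp] at h'
  linarith

end Q62.JL
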