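import Pool.Agent.Q62.JL.Defs

set_option autoImplicit false

namespace Q62.JL

open MeasureTheory Set Filter Topology

theorem two_pairSum {f : E → ℝ} (hf : ∀ x, f (-x) = f x) {N : ℕ} (X : Fin N → E) :
    2 * pairSum f X = ∑ i, ∑ j, if i = j then 0 else f (X i - X j) := by
  have h1 : ∀ i j : Fin N, (if i = j then 0 else f (X i - X j)) =
      (if i < j then f (X i - X j) else 0) + (if j < i then f (X i - X j) else 0) := by
    intro i j
    rcases lt_trichotomy i j with h | h | h
    · simp [h.ne, h, h.le.not_gt]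
    · simp [h]
    · simp [h.ne', h, h.le.not_gt]
  simp_rw [h1, Finset.sum_add_distrib]
  have h2 : ∑ i, ∑ j, (if i < j then f (X i - X j) else 0) = pairSum f X := by
    unfold pairSum
    refine Finset.sum_congr rfl fun i _ => ?_
    rw [← Finset.sum_filter]
    refine Finset.sum_congr ?_ fun _ _ => rfl
    ext j
    simp
  have h3 : ∑ i, ∑ j, (if j < i then f (X i - X j) else 0) = pairSum f X := by
    rw [Finset.sum_comm, ← h2]
    refine Finset.sum_congr rfl fun i _ => Finset.sum_congr rfl fun j _ => ?_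
    split_ifs
    · rw [← hf, neg_sub]
    · rfl
  rw [h2, h3]
  ring

/-- The interaction of particle `p` with the others. -/
noncomputable def inter (f : E → ℝ) {N : ℕ} (X : Fin (N + 1) → E) (p : Fin (N + 1)) : ℝ :=
  ∑ j, f (X p - X (p.succAbove j))

theorem sum_ite_succAbove {f : E → ℝ} {N : ℕ} (X : Fin (N + 1) → E) (p : Fin (N + 1)) :
    ∑ j, (if p = j then 0 else f (X p - X j)) = inter f X p := by
  rw [Fin.sum_univ_succAbove _ p]
  simp only [if_true, zero_add]
  unfold inter
  refine Finset.sum_congr rfl fun j _ => ?_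
  rw [if_neg (Fin.succAbove_ne p j).symm]

theorem two_pairSum_inter {f : E → ℝ} (hf : ∀ x, f (-x) = f x) {N : ℕ} (X : Fin (N + 1) → E) :
    2 * pairSum f X = ∑ p, inter f X p := by
  rw [two_pairSum hf]
  exact Finset.sum_congr rfl fun p _ => sum_ite_succAbove X p

theorem pairSum_remove {f : E → ℝ} (hf : ∀ x, f (-x) = f x) {N : ℕ} (X : Fin (N + 1) → E)
    (p : Fin (N + 1)) :
    pairSum f X = inter f X p + pairSum f (fun j => X (p.succAbove j)) := by
  have h1 := two_pairSum hf X
  have h2 := two_pairSum hf (fun j => X (p.succAbove j))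
  rw [Fin.sum_univ_succAbove _ p, sum_ite_succAbove] at h1
  have h3 : ∀ i : Fin N, ∑ j, (if p.succAbove i = j then 0 else f (X (p.succAbove i) - X j)) =
      f (X p - X (p.succAbove i)) +
        ∑ j, (if i = j then 0 else f (X (p.succAbove i) - X (p.succAbove j))) := by
    intro i
    rw [Fin.sum_univ_succAbove _ p, if_neg (Fin.succAbove_ne p i)]
    congr 1
    · rw [← hf, neg_sub]
    · refine Finset.sum_congr rfl fun j _ => ?_
      simp
  simp_rw [h3, Finset.sum_add_distrib] at h1
  rw [← h2] at h1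
  have h4 : ∑ i, f (X p - X (p.succAbove i)) = inter f X p := rfl
  rw [h4] at h1
  linarith

theorem sum_pairSum_remove {f : E → ℝ} (hf : ∀ x, f (-x) = f x) {N : ℕ}
    (X : Fin (N + 1) → E) :
    ∑ p : Fin (N + 1), pairSum f (fun j => X (p.succAbove j)) = ((N : ℝ) - 1) * pairSum f X := by
  have h1 : ∀ p : Fin (N + 1), pairSum f (fun j => X (p.succAbove j)) =
      pairSum f X - inter f X p := fun p => by
    rw [pairSum_remove hf X p]
    ring
  simp_rw [h1]
  rw [Finset.sum_sub_distrib, ← two_pairSum_inter hf]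
  simp
  ring

theorem sum_remove (g : E → ℝ) {N : ℕ} (X : Fin (N + 1) → E) :
    ∑ p : Fin (N + 1), ∑ j, g (X (p.succAbove j)) = (N : ℝ) * ∑ i, g (X i) := by
  have h1 : ∀ p : Fin (N + 1), ∑ j, g (X (p.succAbove j)) = ∑ i, g (X i) - g (X p) := fun p => by
    rw [Fin.sum_univ_succAbove (fun i => g (X i)) p]
    ring
  simp_rw [h1]
  rw [Finset.sum_sub_distrib]
  simp
  ring

theorem pairSum_add (f g : E → ℝ) {N : ℕ} (X : Fin N → E) :
    pairSum (fun x => f x + g x) X = pairSum f X + pairSum g X := by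
  unfold pairSum
  simp_rw [Finset.sum_add_distrib]

/-- The total pair potential. -/
noncomputable def ww (v : E → ℝ) (x : E) : ℝ := ‖x‖⁻¹ + v x

theorem energy_eq (v : E → ℝ) (ρ : ℝ) (Λ : Set E) {N : ℕ} (X : Fin N → E) :
    energy v ρ Λ X = pairSum (ww v) X - ρ * ∑ i, phi Λ (X i) +
      ρ ^ 2 / 2 * ∫ x in Λ, phi Λ x := by
  unfold energy jell
  have : pairSum (ww v) X = pairSum (fun x => ‖x‖⁻¹) X + pairSum v X := pairSum_add _ _ X
  rw [this]
  ring

theorem ww_even {v : E → ℝ} (hv : ∀ x, v (-x) = v x) (x : E) : ww v (-x) = ww v x := by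
  unfold ww
  rw [norm_neg, hv]

end Q62.JL
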