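import Mathlib

/-!
Classical jellium with an additional short-range pair potential in three dimensions.
-/

set_option autoImplicit false

namespace Q62.JL

open MeasureTheory Set Filter Topology

/-- Physical space. -/
abbrev E := EuclideanSpace ℝ (Fin 3)

/-- The sum over pairs `i < j` of `f (x_i - x_j)`. -/
noncomputable def pairSum (f : E → ℝ) {N : ℕ} (X : Fin N → E) : ℝ :=
  ∑ i, ∑ j ∈ Finset.Ioi i, f (X i - X j)

/-- The potential of the uniform unit charge density on `Λ`. -/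
noncomputable def phi (Λ : Set E) (x : E) : ℝ := ∫ y in Λ, ‖x - y‖⁻¹

/-- The jellium energy with background density `ρ` on `Λ`. -/
noncomputable def jell (ρ : ℝ) (Λ : Set E) {N : ℕ} (X : Fin N → E) : ℝ :=
  pairSum (fun x => ‖x‖⁻¹) X - ρ * ∑ i, phi Λ (X i) + ρ ^ 2 / 2 * ∫ x in Λ, phi Λ x

/-- The total energy. -/
noncomputable def energy (v : E → ℝ) (ρ : ℝ) (Λ : Set E) {N : ℕ} (X : Fin N → E) : ℝ :=
  jell ρ Λ X + pairSum v X

/-- The canonical partition function of `N` particles in `Λ`. -/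
noncomputable def partFn (v : E → ℝ) (β ρ : ℝ) (Λ : Set E) (N : ℕ) : ℝ :=
  (N.factorial : ℝ)⁻¹ * ∫ X, Real.exp (-β * energy v ρ Λ X)
    ∂(Measure.pi fun _ : Fin N => (volume : Measure E).restrict Λ)

/-- The ball centred at the origin with volume `V`. -/
noncomputable def ballOfVol (V : ℝ) : Set E :=
  Metric.ball 0 ((3 * V / (4 * Real.pi)) ^ ((1 : ℝ) / 3))

/-- `|Λ_j|⁻¹ ln Z(β, ρ; Λ_j)` for the ball `Λ_j` with `ρ |Λ_j| = j`. -/
noncomputable def gfin (v : E → ℝ) (β ρ : ℝ) (j : ℕ) : ℝ :=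
  (volume (ballOfVol ((j : ℝ) / ρ))).toReal⁻¹ *
    Real.log (partFn v β ρ (ballOfVol ((j : ℝ) / ρ)) j)

/-- The admissible short-range potentials of the problem. (In Lean `0⁻¹ = 0`, while the Coulomb
energy of a configuration with coinciding points is infinite: stability is asked for
configurations of distinct points.) -/
structure Admissible (v : E → ℝ) : Prop where
  even : ∀ x, v (-x) = v x
  integrable : Integrable v
  tail : ∃ r₀ C ε : ℝ, 0 ≤ r₀ ∧ 0 ≤ C ∧ 0 < ε ∧ ∀ x : E, r₀ < ‖x‖ → v x ≤ C * ‖x‖ ^ (-(3 + ε))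
  stable : ∃ B : ℝ → ℝ, (∀ ρ₀ : ℝ, 0 < ρ₀ → ∃ M : ℝ, ∀ᶠ ρ in 𝓝 ρ₀, |B ρ| ≤ M) ∧
    ∀ ρ : ℝ, 0 < ρ → ∀ Λ : Set E, IsOpen Λ → IsConnected Λ → Bornology.IsBounded Λ →
      ∀ N : ℕ, ρ * (volume Λ).toReal = N → ∀ X : Fin N → E, (∀ i, X i ∈ Λ) →
        Function.Injective X → -(B ρ * N) ≤ energy v ρ Λ X
  limit : ∀ β : ℝ, 0 < β → ∀ ρ : ℝ, 0 < ρ → ∃ g : ℝ, Tendsto (gfin v β ρ) atTop (𝓝 g)

end Q62.JL
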