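import Pool.Agent.Q62.JL.Ball

set_option autoImplicit false

namespace Q62.JL

open MeasureTheory Set Filter Topology

theorem gfin_eq {v : E → ℝ} {β ρ : ℝ} (hρ : 0 < ρ) {j : ℕ} (hj : 0 < j) :
    LZ v β ((j : ℝ) / ρ) j = (j : ℝ) / ρ * gfin v β ρ j := by
  unfold LZ gfin
  have hj' : (0 : ℝ) < j := Nat.cast_pos.mpr hj
  have h1 : (j : ℝ) / ((j : ℝ) / ρ) = ρ := by field_simp
  rw [h1, vol_ball_toReal (by positivity), ← mul_assoc, mul_inv_cancel₀ (by positivity), one_mul]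

/-- The one-sided comparison for fixed `L`. -/
theorem one_sided_L {v : E → ℝ} (hv : ∀ x, v (-x) = v x) (hvm : AEStronglyMeasurable v volume)
    (hvi : Integrable v) {B : ℝ → ℝ} (hB : Stab v B) {β : ℝ} (hβ : 0 < β) {a b M : ℝ}
    (ha : 0 < a) (hM : 0 ≤ M) (hBM : ∀ x, a ≤ x → x ≤ b → |B x| ≤ M) {g : ℝ → ℝ}
    (hg : ∀ ρ, 0 < ρ → Tendsto (gfin v β ρ) atTop (𝓝 (g ρ))) {ρ ρ' : ℝ} (h1 : a ≤ ρ)
    (h1' : ρ < b) (h2 : a ≤ ρ') (h2' : ρ' < b) {L : ℝ} (hL : 0 < L) :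
    g ρ - KK v β a b M * |ρ' - ρ| - β * (2 * ρ' ^ 2 * (1 / ρ' * (1 / L))) ≤ g ρ' := by
  have hρ : 0 < ρ := ha.trans_le h1
  have hρ' : 0 < ρ' := ha.trans_le h2
  -- sequences
  set V : ℕ → ℝ := fun j => (j : ℝ) / ρ with hV
  set k : ℕ → ℕ := fun j => ⌈ρ' * V j⌉₊ with hk
  have hVt : Tendsto V atTop atTop := tendsto_natCast_atTop_atTop.atTop_div_const hρ
  have hkr : Tendsto (fun j => (k j : ℝ) / V j) atTop (𝓝 ρ') :=
    (tendsto_nat_ceil_mul_div_atTop hρ'.le).comp hVt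
  have hkt : Tendsto k atTop atTop :=
    tendsto_nat_ceil_atTop.comp (hVt.const_mul_atTop hρ')
  set V' : ℕ → ℝ := fun j => (k j : ℝ) / ρ' with hV'
  have hrat : Tendsto (fun j => V' j / V j) atTop (𝓝 1) := by
    have h := hkr.div_const ρ'
    rw [div_self hρ'.ne'] at h
    refine h.congr fun j => ?_
    simp only [hV']
    rw [div_right_comm]
  -- left and right sides
  have hlhs : Tendsto (fun j => gfin v β ρ j - KK v β a b M * |(k j : ℝ) / V j - ρ| -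
      β * (2 * ((k j : ℝ) / V j) ^ 2 * (1 / ρ' * (CK L / V j + (V' j / V j) * (1 / L))))) atTop
      (𝓝 (g ρ - KK v β a b M * |ρ' - ρ| -
        β * (2 * ρ' ^ 2 * (1 / ρ' * (0 + 1 * (1 / L)))))) := by
    refine Tendsto.sub (Tendsto.sub (hg ρ hρ) ?_) ?_
    · exact ((hkr.sub_const ρ).abs).const_mul _
    · refine Tendsto.const_mul _ (Tendsto.mul ((hkr.pow 2).const_mul 2) ?_)
      refine Tendsto.const_mul _ (Tendsto.add ?_ (hrat.mul_const _))
      exact hVt.const_div_atTop (CK L)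
  have hrhs : Tendsto (fun j => (V' j / V j) * gfin v β ρ' (k j)) atTop (𝓝 (1 * g ρ')) :=
    hrat.mul ((hg ρ' hρ').comp hkt)
  rw [one_mul] at hrhs
  have hlim : g ρ - KK v β a b M * |ρ' - ρ| -
        β * (2 * ρ' ^ 2 * (1 / ρ' * (0 + 1 * (1 / L)))) ≤ g ρ' := by
    refine le_of_tendsto_of_tendsto hlhs hrhs ?_
    have hev1 : ∀ᶠ j in atTop, 1 ≤ V j := hVt.eventually_ge_atTop 1
    have hev2 : ∀ᶠ j in atTop, (k j : ℝ) / V j ≤ b :=
      (hkr.eventually (gt_mem_nhds h2')).mono fun j hj => le_of_lt hj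
    have hev3 : ∀ᶠ j : ℕ in atTop, 0 < j := eventually_gt_atTop 0
    have hev4 : ∀ᶠ j in atTop, 0 < k j := hkt.eventually_gt_atTop 0
    filter_upwards [hev1, hev2, hev3, hev4] with j hj1 hj2 hj3 hj4
    have hVj : 0 < V j := by linarith
    have hceil : ρ' * V j ≤ k j := Nat.le_ceil _
    have hceil' : (k j : ℝ) < ρ' * V j + 1 := Nat.ceil_lt_add_one (by positivity)
    have hkV : ρ' ≤ (k j : ℝ) / V j := by
      rw [le_div_iff₀ hVj]
      exact hceil
    have hVV : V j ≤ V' j := by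
      simp only [hV']
      rw [le_div_iff₀ hρ', mul_comm]
      exact hceil
    have hVV' : V' j - V j ≤ 1 / ρ' := by
      simp only [hV']
      rw [sub_le_iff_le_add, div_le_iff₀ hρ', add_mul]
      have : 1 / ρ' * ρ' = 1 := by field_simp
      rw [this]
      linarith
    have hjV : (j : ℝ) / V j = ρ := by
      simp only [hV]
      have hj' : (0 : ℝ) < j := Nat.cast_pos.mpr hj3
      field_simp
    have hch := LZ_chain' hv hvm hvi hB hβ ha hM hBM hj1 (N := j) (N' := k j)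
      (by rw [hjV]; exact h1) (by rw [hjV]; exact h1'.le) (h2.trans hkV) hj2
    have hmis := LZ_mismatch hvm hB hβ hVj hVV hj4 hL
    have hg1 : LZ v β (V j) j = V j * gfin v β ρ j := gfin_eq hρ hj3
    have hg2 : LZ v β (V' j) (k j) = V' j * gfin v β ρ' (k j) := gfin_eq hρ' hj4
    rw [hg1] at hch
    rw [hg2] at hmis
    have hch' := (abs_le.mp hch).1
    -- combine
    have hdiff : |(k j : ℝ) - j| = V j * |(k j : ℝ) / V j - ρ| := by
      rw [← abs_of_pos hVj, ← abs_mul, abs_of_pos hVj]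
      congr 1
      rw [mul_sub, mul_div_cancel₀ _ hVj.ne']
      congr 1
      rw [← hjV]
      field_simp
    rw [hdiff] at hch'
    have hmisb : 2 * (k j : ℝ) ^ 2 * (V' j - V j) * (CK L + V' j / L) / (V j) ^ 2 ≤
        V j * (2 * ((k j : ℝ) / V j) ^ 2 * (1 / ρ' * (CK L / V j + (V' j / V j) * (1 / L)))) := by
      have hCK := CK_nonneg L
      have hV'j : 0 < V' j := hVj.trans_le hVV
      have e1 : V j * (2 * ((k j : ℝ) / V j) ^ 2 *
          (1 / ρ' * (CK L / V j + (V' j / V j) * (1 / L)))) =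
          2 * (k j : ℝ) ^ 2 * (1 / ρ') * (CK L + V' j / L) / (V j) ^ 2 := by
        field_simp
      rw [e1]
      refine div_le_div_of_nonneg_right ?_ (by positivity)
      refine mul_le_mul_of_nonneg_right ?_ (by positivity)
      exact mul_le_mul_of_nonneg_left hVV' (by positivity)
    have hfinal : V j * (gfin v β ρ j - KK v β a b M * |(k j : ℝ) / V j - ρ| -
        β * (2 * ((k j : ℝ) / V j) ^ 2 * (1 / ρ' * (CK L / V j + (V' j / V j) * (1 / L))))) ≤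
        V' j * gfin v β ρ' (k j) := by
      have := mul_le_mul_of_nonneg_left hmisb hβ.le
      have e2 : V j * (gfin v β ρ j - KK v β a b M * |(k j : ℝ) / V j - ρ| -
        β * (2 * ((k j : ℝ) / V j) ^ 2 * (1 / ρ' * (CK L / V j + (V' j / V j) * (1 / L))))) =
        V j * gfin v β ρ j - KK v β a b M * (V j * |(k j : ℝ) / V j - ρ|) -
        β * (V j * (2 * ((k j : ℝ) / V j) ^ 2 *
          (1 / ρ' * (CK L / V j + (V' j / V j) * (1 / L))))) := by ring
      rw [e2]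
      linarith
    have e3 : V' j / V j * gfin v β ρ' (k j) = (V' j * gfin v β ρ' (k j)) / V j := by ring
    rw [e3, le_div_iff₀ hVj, mul_comm]
    exact hfinal
  rw [zero_add, one_mul] at hlim
  exact hlim

theorem one_sided {v : E → ℝ} (hv : ∀ x, v (-x) = v x) (hvm : AEStronglyMeasurable v volume)
    (hvi : Integrable v) {B : ℝ → ℝ} (hB : Stab v B) {β : ℝ} (hβ : 0 < β) {a b M : ℝ}
    (ha : 0 < a) (hM : 0 ≤ M) (hBM : ∀ x, a ≤ x → x ≤ b → |B x| ≤ M) {g : ℝ → ℝ}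
    (hg : ∀ ρ, 0 < ρ → Tendsto (gfin v β ρ) atTop (𝓝 (g ρ))) {ρ ρ' : ℝ} (h1 : a ≤ ρ)
    (h1' : ρ < b) (h2 : a ≤ ρ') (h2' : ρ' < b) :
    g ρ - KK v β a b M * |ρ' - ρ| ≤ g ρ' := by
  have ht : Tendsto (fun L : ℝ => g ρ - KK v β a b M * |ρ' - ρ| -
      β * (2 * ρ' ^ 2 * (1 / ρ' * (1 / L)))) atTop
      (𝓝 (g ρ - KK v β a b M * |ρ' - ρ| - β * (2 * ρ' ^ 2 * (1 / ρ' * 0)))) := by
    refine Tendsto.sub tendsto_const_nhds ?_
    refine Tendsto.const_mul _ (Tendsto.const_mul _ (Tendsto.const_mul _ ?_))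
    exact tendsto_id.const_div_atTop 1
  have h := le_of_tendsto ht (b := g ρ') (by
    filter_upwards [eventually_gt_atTop 0] with L hL
    exact one_sided_L hv hvm hvi hB hβ ha hM hBM hg h1 h1' h2 h2' hL)
  simpa using h

theorem main {v : E → ℝ} (hv : Admissible v) {β : ℝ} (hβ : 0 < β) {g : ℝ → ℝ}
    (hg : ∀ ρ, 0 < ρ → Tendsto (gfin v β ρ) atTop (𝓝 (g ρ))) :
    LocallyLipschitzOn (Set.Ioi 0) g := by
  intro ρ₀ hρ₀
  rw [mem_Ioi] at hρ₀
  obtain ⟨B, hBl, hB⟩ := hv.stable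
  obtain ⟨M, hM⟩ := hBl ρ₀ hρ₀
  rw [Metric.eventually_nhds_iff] at hM
  obtain ⟨δ, hδ, hM⟩ := hM
  set η : ℝ := min (δ / 2) (ρ₀ / 2) with hη
  have hη0 : 0 < η := by positivity
  have hη1 : η ≤ δ / 2 := min_le_left _ _
  have hη2 : η ≤ ρ₀ / 2 := min_le_right _ _
  have hM0 : 0 ≤ M := (abs_nonneg _).trans (hM (y := ρ₀) (by simpa using hδ))
  have ha : 0 < ρ₀ - η := by linarith
  have hBM : ∀ x, ρ₀ - η ≤ x → x ≤ ρ₀ + η → |B x| ≤ M := by
    intro x hx1 hx2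
    apply hM
    rw [Real.dist_eq, abs_lt]
    constructor <;> linarith
  have hKK : 0 ≤ KK v β (ρ₀ - η) (ρ₀ + η) M := KK_nonneg hβ (by linarith) hM0
  refine ⟨(KK v β (ρ₀ - η) (ρ₀ + η) M).toNNReal, Set.Ioo (ρ₀ - η) (ρ₀ + η), ?_, ?_⟩
  · exact mem_nhdsWithin_of_mem_nhds (Ioo_mem_nhds (by linarith) (by linarith))
  · refine LipschitzOnWith.of_dist_le_mul fun x hx y hy => ?_
    rw [Real.coe_toNNReal _ hKK, Real.dist_eq, Real.dist_eq, abs_le]
    have h1 := one_sided hv.even hv.integrable.aestronglyMeasurable hv.integrable hB hβ ha hM0 hBM hg hx.1.le hx.2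
      hy.1.le hy.2
    have h2 := one_sided hv.even hv.integrable.aestronglyMeasurable hv.integrable hB hβ ha hM0 hBM hg hy.1.le hy.2
      hx.1.le hx.2
    rw [abs_sub_comm] at h1
    constructor <;> linarith

end Q62.JL
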