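import Pool.Agent.Q62.JL.Phi

set_option autoImplicit false

namespace Q62.JL

open MeasureTheory Set Filter Topology

/-- The restricted product measure. -/
noncomputable abbrev pm (Λ : Set E) (N : ℕ) : Measure (Fin N → E) :=
  Measure.pi fun _ : Fin N => (volume : Measure E).restrict Λ

theorem ae_mem {Λ : Set E} (hm : MeasurableSet Λ) (N : ℕ) :
    ∀ᵐ X ∂(pm Λ N), ∀ i, X i ∈ Λ := by
  unfold pm
  rw [← Measure.restrict_pi_pi]
  filter_upwards [ae_restrict_mem (MeasurableSet.univ_pi fun _ => hm)] with X hX i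
  exact hX i (mem_univ i)

theorem finite_restrict {Λ : Set E} (hfin : volume Λ ≠ ⊤) :
    IsFiniteMeasure ((volume : Measure E).restrict Λ) :=
  ⟨by simpa using hfin.lt_top⟩

theorem qmp_sub {Λ : Set E} {N : ℕ} {i j : Fin N} (hij : i ≠ j) :
    Measure.QuasiMeasurePreserving (fun X : Fin N → E => X i - X j) (pm Λ N) volume := by
  have hmeas : Measurable (fun X : Fin N → E => X i - X j) :=
    (measurable_pi_apply i).sub (measurable_pi_apply j)
  refine ⟨hmeas, ?_⟩
  refine Measure.AbsolutelyContinuous.mk fun s hs h0 => ?_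
  rw [Measure.map_apply hmeas hs]
  let L : (Fin N → E) →ₗ[ℝ] E :=
    (LinearMap.proj (R := ℝ) (φ := fun _ : Fin N => E) i) -
      (LinearMap.proj (R := ℝ) (φ := fun _ : Fin N => E) j)
  have hL : Function.Surjective L := by
    intro y
    refine ⟨Pi.single i y, ?_⟩
    simp [L, Pi.single_eq_of_ne hij.symm]
  have h1 := (ae_comp_linearMap_mem_iff L (volume : Measure (Fin N → E)) (volume : Measure E) hL
    hs.compl).mpr (compl_mem_ae_iff.mpr h0)
  have h2 : (volume : Measure (Fin N → E)) ((fun X : Fin N → E => X i - X j) ⁻¹' s) = 0 := by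
    rw [ae_iff] at h1
    convert h1 using 2
    ext X
    simp [L]
  have h3 : pm Λ N ≪ (volume : Measure (Fin N → E)) := by
    unfold pm
    rw [← Measure.restrict_pi_pi]
    exact Measure.restrict_le_self.absolutelyContinuous
  exact h3 h2

theorem aesm_pairSum {f : E → ℝ} (hf : AEStronglyMeasurable f volume) (Λ : Set E) {M N : ℕ}
    (e : Fin N → Fin M) (he : Function.Injective e) :
    AEStronglyMeasurable (fun X : Fin M → E => pairSum f (fun j => X (e j))) (pm Λ M) := by
  unfold pairSum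
  refine Finset.aestronglyMeasurable_fun_sum _ fun i _ =>
    Finset.aestronglyMeasurable_fun_sum _ fun j hj => ?_
  have hij : e i ≠ e j := fun h => by
    have := he h
    rw [Finset.mem_Ioi] at hj
    exact hj.ne this
  exact hf.comp_quasiMeasurePreserving (qmp_sub hij)

theorem aesm_energy {v : E → ℝ} (hv : AEStronglyMeasurable v volume) (ρ : ℝ) (Λ Λ' : Set E)
    {M N : ℕ} (e : Fin N → Fin M) (he : Function.Injective e) :
    AEStronglyMeasurable (fun X : Fin M → E => energy v ρ Λ' (fun j => X (e j))) (pm Λ M) := by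
  unfold energy jell
  refine AEStronglyMeasurable.add (AEStronglyMeasurable.add (AEStronglyMeasurable.sub ?_ ?_)
    aestronglyMeasurable_const) ?_
  · exact aesm_pairSum measurable_inv_norm.aestronglyMeasurable Λ e he
  · refine (Measurable.const_mul ?_ _).aestronglyMeasurable
    exact Finset.measurable_sum _ fun i _ => (measurable_phi Λ').comp (measurable_pi_apply _)
  · exact aesm_pairSum hv Λ e he

theorem aesm_exp_energy {v : E → ℝ} (hv : AEStronglyMeasurable v volume) (β ρ : ℝ)
    (Λ Λ' : Set E) {M N : ℕ} (e : Fin N → Fin M) (he : Function.Injective e) :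
    AEStronglyMeasurable (fun X : Fin M → E =>
      Real.exp (-β * energy v ρ Λ' (fun j => X (e j)))) (pm Λ M) :=
  Real.continuous_exp.comp_aestronglyMeasurable ((aesm_energy hv ρ Λ Λ' e he).const_mul (-β))

theorem aesm_exp_energy' {v : E → ℝ} (hv : AEStronglyMeasurable v volume) (β ρ : ℝ)
    (Λ Λ' : Set E) (N : ℕ) :
    AEStronglyMeasurable (fun X : Fin N → E => Real.exp (-β * energy v ρ Λ' X)) (pm Λ N) :=
  aesm_exp_energy hv β ρ Λ Λ' id Function.injective_id

theorem ae_inj (Λ : Set E) (N : ℕ) : ∀ᵐ X ∂(pm Λ N), Function.Injective X := by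
  have h1 : ∀ i j : Fin N, ∀ᵐ X ∂(pm Λ N), i ≠ j → X i ≠ X j := by
    intro i j
    by_cases hij : i = j
    · exact Filter.Eventually.of_forall fun X h => absurd hij h
    · have h2 : volume ({0} : Set E) = 0 := measure_singleton 0
      have h3 := (qmp_sub (Λ := Λ) hij).preimage_null h2
      rw [← compl_mem_ae_iff] at h3
      filter_upwards [h3] with X hX _ h
      apply hX
      simp [h]
  have h4 : ∀ᵐ X ∂(pm Λ N), ∀ i j, i ≠ j → X i ≠ X j := by
    rw [ae_all_iff]
    intro i
    rw [ae_all_iff]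
    intro j
    exact h1 i j
  filter_upwards [h4] with X hX i j hij
  by_contra h
  exact hX i j h hij

theorem integrable_of_bdd {Λ : Set E} (hm : MeasurableSet Λ) (hfin : volume Λ ≠ ⊤) {N : ℕ}
    {F : (Fin N → E) → ℝ} (hF : AEStronglyMeasurable F (pm Λ N)) {C : ℝ}
    (hC : ∀ X : Fin N → E, (∀ i, X i ∈ Λ) → Function.Injective X → |F X| ≤ C) :
    Integrable F (pm Λ N) := by
  have := finite_restrict hfin
  refine Integrable.mono' (g := fun _ => C) (integrable_const _) hF ?_
  filter_upwards [ae_mem hm N, ae_inj Λ N] with X hX hX'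
  rw [Real.norm_eq_abs]
  exact hC X hX hX'

theorem integrable_exp {v : E → ℝ} (hv : AEStronglyMeasurable v volume) {β ρ : ℝ} (hβ : 0 < β)
    {Λ : Set E} (hm : MeasurableSet Λ) (hfin : volume Λ ≠ ⊤) {N : ℕ} {b : ℝ}
    (hB : ∀ X : Fin N → E, (∀ i, X i ∈ Λ) → Function.Injective X → -b ≤ energy v ρ Λ X) :
    Integrable (fun X : Fin N → E => Real.exp (-β * energy v ρ Λ X)) (pm Λ N) := by
  refine integrable_of_bdd hm hfin (aesm_exp_energy' hv β ρ Λ Λ N)
    (C := Real.exp (β * b)) fun X hX hX' => ?_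
  rw [abs_of_pos (Real.exp_pos _)]
  apply Real.exp_le_exp.mpr
  have := mul_le_mul_of_nonneg_left (hB X hX hX') hβ.le
  linarith

/-- The configuration integral. -/
noncomputable def II (v : E → ℝ) (β ρ : ℝ) (Λ : Set E) (N : ℕ) : ℝ :=
  ∫ X, Real.exp (-β * energy v ρ Λ X) ∂(pm Λ N)

theorem partFn_eq (v : E → ℝ) (β ρ : ℝ) (Λ : Set E) (N : ℕ) :
    partFn v β ρ Λ N = (N.factorial : ℝ)⁻¹ * II v β ρ Λ N := rfl

theorem II_pos {v : E → ℝ} (hv : AEStronglyMeasurable v volume) {β ρ : ℝ} (hβ : 0 < β) {Λ : Set E}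
    (hm : MeasurableSet Λ) (hfin : volume Λ ≠ ⊤) (h0 : volume Λ ≠ 0) {N : ℕ} {b : ℝ}
    (hB : ∀ X : Fin N → E, (∀ i, X i ∈ Λ) → Function.Injective X → -b ≤ energy v ρ Λ X) : 0 < II v β ρ Λ N := by
  have : NeZero (pm Λ N) := by
    refine ⟨fun h => ?_⟩
    have h1 : pm Λ N Set.univ = 0 := by rw [h]; rfl
    unfold pm at h1
    rw [Measure.pi_univ] at h1
    rw [Finset.prod_eq_zero_iff] at h1
    obtain ⟨i, -, hi⟩ := h1
    rw [Measure.restrict_apply_univ] at hi
    exact h0 hi
  exact integral_exp_pos (integrable_exp hv hβ hm hfin hB)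

theorem jensen_exp {α : Type*} [MeasurableSpace α] {μ : Measure α} [IsFiniteMeasure μ] {V : ℝ}
    (hV : μ.real Set.univ = V) {f : α → ℝ} (hf : Integrable f μ)
    (hef : Integrable (fun x => Real.exp (f x)) μ) {m : ℝ} (hm : V * m ≤ ∫ x, f x ∂μ) :
    V * Real.exp m ≤ ∫ x, Real.exp (f x) ∂μ := by
  have h1 : ∫ x, Real.exp m * (f x + (1 - m)) ∂μ ≤ ∫ x, Real.exp (f x) ∂μ := by
    refine integral_mono ((hf.add (integrable_const _)).const_mul _) hef fun x => ?_
    simp only
    have h2 : Real.exp (f x) = Real.exp m * Real.exp (f x - m) := by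
      rw [← Real.exp_add]; congr 1; ring
    rw [h2]
    refine mul_le_mul_of_nonneg_left ?_ (Real.exp_pos m).le
    have := Real.add_one_le_exp (f x - m)
    linarith
  rw [integral_const_mul, integral_add hf (integrable_const _), integral_const, smul_eq_mul,
    hV] at h1
  refine le_trans ?_ h1
  rw [mul_comm V]
  refine mul_le_mul_of_nonneg_left ?_ (Real.exp_pos m).le
  linarith

/-- Adding a particle. -/
theorem energy_ins {v : E → ℝ} (hv : ∀ x, v (-x) = v x) (ρ : ℝ) (Λ : Set E) {N : ℕ}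
    (X : Fin N → E) (y : E) :
    energy v ρ Λ (Fin.insertNth (α := fun _ => E) 0 y X) =
      (pairSum (ww v) X - ρ * ∑ j, phi Λ (X j) + ρ ^ 2 / 2 * ∫ x in Λ, phi Λ x) +
        ∑ j, ‖y - X j‖⁻¹ + ∑ j, v (y - X j) - ρ * phi Λ y := by
  rw [energy_eq, pairSum_remove (ww_even hv) _ 0]
  unfold inter
  have h1 : (fun j => Fin.insertNth (α := fun _ => E) 0 y X (Fin.succAbove 0 j)) = X := by
    funext j
    rw [Fin.insertNth_apply_succAbove]
  rw [h1]
  rw [Fin.sum_univ_succAbove _ 0]
  simp only [Fin.insertNth_apply_same, Fin.insertNth_apply_succAbove]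
  have h2 : ∑ j, ww v (y - X j) = ∑ j, ‖y - X j‖⁻¹ + ∑ j, v (y - X j) := by
    unfold ww
    rw [Finset.sum_add_distrib]
  rw [h2]
  ring

theorem inner_add {v : E → ℝ} (hv : ∀ x, v (-x) = v x) (hvi : Integrable v)
    {Λ : Set E} (hfin : volume Λ ≠ ⊤) {V : ℝ} (hV : (volume Λ).toReal = V) (hV0 : 0 < V)
    {N : ℕ} (X : Fin N → E) :
    Integrable (fun y => energy v ((N + 1 : ℝ) / V) Λ (Fin.insertNth (α := fun _ => E) 0 y X))
      ((volume : Measure E).restrict Λ) ∧
    ∫ y in Λ, energy v ((N + 1 : ℝ) / V) Λ (Fin.insertNth (α := fun _ => E) 0 y X) ≤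
      V * energy v ((N : ℝ) / V) Λ X + N * ∫ x, |v x| := by
  have := finite_restrict hfin
  simp_rw [energy_ins hv]
  have i1 : ∀ j, Integrable (fun y => ‖y - X j‖⁻¹) ((volume : Measure E).restrict Λ) := by
    intro j
    refine (integrableOn_inv hfin (X j)).congr (Filter.Eventually.of_forall fun y => ?_)
    simp only
    rw [norm_sub_rev]
  have i1' : Integrable (fun y => ∑ j, ‖y - X j‖⁻¹) ((volume : Measure E).restrict Λ) :=
    integrable_finsetSum _ fun j _ => i1 j
  have i2 : ∀ j, Integrable (fun y => v (y - X j)) := fun j => hvi.comp_sub_right (X j)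
  have i2' : Integrable (fun y => ∑ j, v (y - X j)) ((volume : Measure E).restrict Λ) :=
    integrable_finsetSum _ fun j _ => (i2 j).integrableOn
  have i3 : Integrable (phi Λ) ((volume : Measure E).restrict Λ) := phi_integrableOn hfin hfin
  have i4 : ∀ c : ℝ, Integrable (fun _ : E => c) ((volume : Measure E).restrict Λ) :=
    fun c => integrable_const _
  set c0 : ℝ := pairSum (ww v) X - (N + 1 : ℝ) / V * ∑ j, phi Λ (X j) +
    ((N + 1 : ℝ) / V) ^ 2 / 2 * ∫ x in Λ, phi Λ x with hc0
  have i5 : Integrable (fun y => c0 + ∑ j, ‖y - X j‖⁻¹) ((volume : Measure E).restrict Λ) :=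
    (i4 c0).add i1'
  have i6 : Integrable (fun y => c0 + ∑ j, ‖y - X j‖⁻¹ + ∑ j, v (y - X j))
      ((volume : Measure E).restrict Λ) := i5.add i2'
  have i7 : Integrable (fun y => (N + 1 : ℝ) / V * phi Λ y)
      ((volume : Measure E).restrict Λ) := i3.const_mul _
  refine ⟨i6.sub i7, ?_⟩
  rw [integral_sub i6 i7, integral_add i5 i2', integral_add (i4 _) i1', integral_const,
    integral_const_mul]
  rw [integral_finsetSum _ fun j _ => i1 j, integral_finsetSum _ fun j _ => (i2 j).integrableOn]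
  simp_rw [phi_symm]
  have e1 : ((volume : Measure E).restrict Λ).real Set.univ = V := by
    rw [← hV]
    simp [Measure.real]
  rw [e1, smul_eq_mul, energy_eq, hc0]
  have h3 : ∑ j, ∫ y in Λ, v (y - X j) ≤ N * ∫ x, |v x| := by
    calc ∑ j, ∫ y in Λ, v (y - X j) ≤ ∑ _j : Fin N, ∫ x, |v x| := by
          refine Finset.sum_le_sum fun j _ => ?_
          calc ∫ y in Λ, v (y - X j) ≤ ∫ y in Λ, |v (y - X j)| :=
                integral_mono (i2 j).integrableOn (i2 j).abs.integrableOn fun y => le_abs_self _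
            _ ≤ ∫ y, |v (y - X j)| :=
                setIntegral_le_integral (i2 j).abs (Filter.Eventually.of_forall fun _ => abs_nonneg _)
            _ = ∫ x, |v x| := integral_sub_right_eq_self (fun x => |v x|) (X j)
      _ = N * ∫ x, |v x| := by simp
  have hE0 := int_phi_nonneg Λ Λ
  set E0 := ∫ x in Λ, phi Λ x with hE0d
  set S := ∑ j, phi Λ (X j)
  set P := pairSum (ww v) X
  set T := ∑ j, ∫ y in Λ, v (y - X j)
  have key : V * (P - (N + 1 : ℝ) / V * S + ((N + 1 : ℝ) / V) ^ 2 / 2 * E0) + S + T -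
      (N + 1 : ℝ) / V * E0 = V * (P - (N : ℝ) / V * S + ((N : ℝ) / V) ^ 2 / 2 * E0) + T -
        E0 / (2 * V) := by
    field_simp
    ring
  rw [key]
  have : 0 ≤ E0 / (2 * V) := by positivity
  linarith

theorem II_add {v : E → ℝ} (hv : ∀ x, v (-x) = v x) (hvm : AEStronglyMeasurable v volume) (hvi : Integrable v)
    {β : ℝ} (hβ : 0 < β) {Λ : Set E} (hm : MeasurableSet Λ) (hfin : volume Λ ≠ ⊤) {V : ℝ}
    (hV : (volume Λ).toReal = V) (hV0 : 0 < V) {N : ℕ} {b b' : ℝ}
    (hB : ∀ X : Fin N → E, (∀ i, X i ∈ Λ) → Function.Injective X → -b ≤ energy v ((N : ℝ) / V) Λ X)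
    (hB' : ∀ X : Fin (N + 1) → E, (∀ i, X i ∈ Λ) → Function.Injective X → -b' ≤ energy v ((N + 1 : ℝ) / V) Λ X) :
    V * Real.exp (-β * ((N : ℝ) / V * ∫ x, |v x|)) * II v β ((N : ℝ) / V) Λ N ≤
      II v β ((N + 1 : ℝ) / V) Λ (N + 1) := by
  have := finite_restrict hfin
  have hmp := (measurePreserving_piFinSuccAbove (α := fun _ => E)
    (fun _ : Fin (N + 1) => (volume : Measure E).restrict Λ) 0).symm
  have hint := integrable_exp hvm hβ hm hfin hB'
  have hint2 := integrable_exp hvm hβ hm hfin hB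
  have e1 : II v β ((N + 1 : ℝ) / V) Λ (N + 1) =
      ∫ z : E × (Fin N → E), Real.exp (-β * energy v ((N + 1 : ℝ) / V) Λ
        (Fin.insertNth (α := fun _ => E) 0 z.1 z.2))
        ∂(((volume : Measure E).restrict Λ).prod (pm Λ N)) := by
    unfold II
    rw [← hmp.integral_comp' (fun X => Real.exp (-β * energy v ((N + 1 : ℝ) / V) Λ X))]
    rfl
  have hint3 : Integrable (fun z : E × (Fin N → E) => Real.exp (-β * energy v ((N + 1 : ℝ) / V) Λ
        (Fin.insertNth (α := fun _ => E) 0 z.1 z.2)))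
        (((volume : Measure E).restrict Λ).prod (pm Λ N)) := by
    have := hmp.integrable_comp_emb (MeasurableEquiv.measurableEmbedding _)
      (g := (fun X => Real.exp (-β * energy v ((N + 1 : ℝ) / V) Λ X)))
    exact this.mpr hint
  rw [e1, integral_prod_symm _ hint3]
  unfold II
  rw [← integral_const_mul]
  refine integral_mono_ae (hint2.const_mul _) hint3.integral_prod_right ?_
  filter_upwards [hint3.prod_left_ae] with X hX
  obtain ⟨h1, h2⟩ := inner_add hv hvi hfin hV hV0 X
  have hVr : ((volume : Measure E).restrict Λ).real Set.univ = V := by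
    rw [← hV]
    simp [Measure.real]
  have := jensen_exp hVr (h1.const_mul (-β)) hX
    (m := -β * (energy v ((N : ℝ) / V) Λ X + (N : ℝ) / V * ∫ x, |v x|)) (by
      rw [integral_const_mul]
      have h3 := mul_le_mul_of_nonneg_left h2 hβ.le
      have h4 : V * (-β * (energy v ((N : ℝ) / V) Λ X + (N : ℝ) / V * ∫ x, |v x|)) =
          -(β * (V * energy v ((N : ℝ) / V) Λ X + N * ∫ x, |v x|)) := by
        field_simp
      rw [h4]
      linarith)
  refine le_trans (le_of_eq ?_) this
  have h5 : -β * (energy v ((N : ℝ) / V) Λ X + (N : ℝ) / V * ∫ x, |v x|) =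
      -β * ((N : ℝ) / V * ∫ x, |v x|) + -β * energy v ((N : ℝ) / V) Λ X := by ring
  rw [h5, Real.exp_add]
  ring

end Q62.JL
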