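import Pool.Agent.Q62.JL.Part

set_option autoImplicit false

namespace Q62.JL

open MeasureTheory Set Filter Topology

/-- Removing a particle: the average energy. -/
theorem avg_remove {v : E → ℝ} (hv : ∀ x, v (-x) = v x) {Λ : Set E} {V : ℝ} (hV0 : 0 < V)
    {N : ℕ} {B : ℝ} (X : Fin (N + 1) → E)
    (hB : -(B * (N + 1)) ≤ energy v ((N + 1 : ℝ) / V) Λ X) :
    ∑ p : Fin (N + 1), energy v ((N : ℝ) / V) Λ (fun j => X (p.succAbove j)) ≤
      (N + 1) * (energy v ((N + 1 : ℝ) / V) Λ X +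
        (2 * B + (∫ x in Λ, phi Λ x) / (2 * V ^ 2))) := by
  have h1 : ∑ p : Fin (N + 1), energy v ((N : ℝ) / V) Λ (fun j => X (p.succAbove j)) =
      ((N : ℝ) - 1) * pairSum (ww v) X - (N : ℝ) / V * (N * ∑ i, phi Λ (X i)) +
        (N + 1) * (((N : ℝ) / V) ^ 2 / 2 * ∫ x in Λ, phi Λ x) := by
    simp_rw [energy_eq]
    rw [Finset.sum_add_distrib, Finset.sum_sub_distrib, sum_pairSum_remove (ww_even hv),
      ← Finset.mul_sum, sum_remove (phi Λ) X]
    simp
  rw [h1]
  have hE0 := int_phi_nonneg Λ Λ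
  have hS : 0 ≤ ∑ i, phi Λ (X i) := Finset.sum_nonneg fun i _ => phi_nonneg Λ _
  rw [energy_eq] at hB ⊢
  set E0 := ∫ x in Λ, phi Λ x
  set S := ∑ j, phi Λ (X j)
  set P := pairSum (ww v) X
  set n : ℝ := (N : ℝ) + 1 with hn
  have hn1 : (N : ℝ) = n - 1 := by rw [hn]; ring
  have hnpos : 1 ≤ n := by
    rw [hn]
    have : (0 : ℝ) ≤ N := Nat.cast_nonneg N
    linarith
  rw [hn1]
  set e := P - n / V * S + (n / V) ^ 2 / 2 * E0 with he
  have hP : P = e + n / V * S - (n / V) ^ 2 / 2 * E0 := by rw [he]; ring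
  have hnV : 0 ≤ n / V := by positivity
  have h2 : -(B * n) - (n / V) ^ 2 / 2 * E0 ≤ P := by
    have : 0 ≤ n / V * S := mul_nonneg hnV hS
    linarith
  -- n * (avg - e) = -((2 n - 1) / n) e - P / n
  have key : (n - 1 - 1) * P - (n - 1) / V * ((n - 1) * S) + n * (((n - 1) / V) ^ 2 / 2 * E0) =
      n * e - ((2 * n - 1) / n) * e - P / n := by
    rw [he]
    field_simp
    ring
  rw [key]
  have h3 : -((2 * n - 1) / n) * e ≤ (2 * n - 1) / n * (B * n) := by
    have : 0 ≤ (2 * n - 1) / n := div_nonneg (by linarith) (by linarith)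
    have := mul_le_mul_of_nonneg_left hB this
    linarith
  have h4 : -(P / n) ≤ (B * n + (n / V) ^ 2 / 2 * E0) / n := by
    rw [← neg_div]
    exact div_le_div_of_nonneg_right (by linarith) (by linarith)
  have h5 : (2 * n - 1) / n * (B * n) + (B * n + (n / V) ^ 2 / 2 * E0) / n =
      n * (2 * B + E0 / (2 * V ^ 2)) := by
    field_simp
    ring
  linarith

theorem sum_exp_ge {ι : Type*} (s : Finset ι) (a : ι → ℝ) (m : ℝ)
    (h : (s.card : ℝ) * m ≤ ∑ i ∈ s, a i) :
    (s.card : ℝ) * Real.exp m ≤ ∑ i ∈ s, Real.exp (a i) := by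
  have h1 : ∑ i ∈ s, Real.exp m * (a i + (1 - m)) ≤ ∑ i ∈ s, Real.exp (a i) := by
    refine Finset.sum_le_sum fun i _ => ?_
    have h2 : Real.exp (a i) = Real.exp m * Real.exp (a i - m) := by
      rw [← Real.exp_add]; congr 1; ring
    rw [h2]
    refine mul_le_mul_of_nonneg_left ?_ (Real.exp_pos m).le
    have := Real.add_one_le_exp (a i - m)
    linarith
  refine le_trans ?_ h1
  rw [← Finset.mul_sum, Finset.sum_add_distrib, Finset.sum_const, nsmul_eq_mul, mul_comm]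
  refine mul_le_mul_of_nonneg_left ?_ (Real.exp_pos m).le
  linarith

theorem II_remove {v : E → ℝ} (hv : ∀ x, v (-x) = v x) (hvm : AEStronglyMeasurable v volume)
    {β : ℝ} (hβ : 0 < β) {Λ : Set E} (hm : MeasurableSet Λ) (hfin : volume Λ ≠ ⊤) {V : ℝ}
    (hV : (volume Λ).toReal = V) (hV0 : 0 < V) {N : ℕ} {b B : ℝ}
    (hB : ∀ X : Fin N → E, (∀ i, X i ∈ Λ) → Function.Injective X → -b ≤ energy v ((N : ℝ) / V) Λ X)
    (hB' : ∀ X : Fin (N + 1) → E, (∀ i, X i ∈ Λ) → Function.Injective X →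
      -(B * (N + 1)) ≤ energy v ((N + 1 : ℝ) / V) Λ X) :
    Real.exp (-β * (2 * B + (∫ x in Λ, phi Λ x) / (2 * V ^ 2))) *
      II v β ((N + 1 : ℝ) / V) Λ (N + 1) ≤ V * II v β ((N : ℝ) / V) Λ N := by
  have := finite_restrict hfin
  set c : ℝ := 2 * B + (∫ x in Λ, phi Λ x) / (2 * V ^ 2) with hc
  have hint := integrable_exp hvm hβ hm hfin hB'
  have hVr : ((volume : Measure E).restrict Λ).real Set.univ = V := by
    rw [← hV]
    simp [Measure.real]
  have hp : ∀ p : Fin (N + 1), ∫ X, Real.exp (-β * energy v ((N : ℝ) / V) Λ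
      (fun j => X (p.succAbove j))) ∂(pm Λ (N + 1)) = V * II v β ((N : ℝ) / V) Λ N := by
    intro p
    have hmp := (measurePreserving_piFinSuccAbove (α := fun _ => E)
      (fun _ : Fin (N + 1) => (volume : Measure E).restrict Λ) p)
    have h1 := hmp.integral_comp' (fun z : E × (Fin N → E) =>
      Real.exp (-β * energy v ((N : ℝ) / V) Λ z.2))
    rw [integral_fun_snd (fun y : Fin N → E => Real.exp (-β * energy v ((N : ℝ) / V) Λ y)),
      hVr, smul_eq_mul] at h1
    exact h1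
  have hpi : ∀ p : Fin (N + 1), Integrable (fun X : Fin (N + 1) → E =>
      Real.exp (-β * energy v ((N : ℝ) / V) Λ (fun j => X (p.succAbove j)))) (pm Λ (N + 1)) := by
    intro p
    refine integrable_of_bdd hm hfin (aesm_exp_energy hvm β _ Λ Λ p.succAbove
      Fin.succAbove_right_injective) (C := Real.exp (β * b)) fun X hX hX' => ?_
    rw [abs_of_pos (Real.exp_pos _)]
    apply Real.exp_le_exp.mpr
    have := mul_le_mul_of_nonneg_left (hB (fun j => X (p.succAbove j)) (fun i => hX _)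
      (hX'.comp Fin.succAbove_right_injective)) hβ.le
    linarith
  have hN : (0 : ℝ) < (N : ℝ) + 1 := by positivity
  have hmain : ∫ X, ((N : ℝ) + 1) * (Real.exp (-β * c) *
      Real.exp (-β * energy v ((N + 1 : ℝ) / V) Λ X)) ∂(pm Λ (N + 1)) ≤
      ∫ X, ∑ p : Fin (N + 1), Real.exp (-β * energy v ((N : ℝ) / V) Λ
        (fun j => X (p.succAbove j))) ∂(pm Λ (N + 1)) := by
    refine integral_mono_ae ((hint.const_mul _).const_mul _)
      (integrable_finsetSum _ fun p _ => hpi p) ?_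
    filter_upwards [ae_mem hm (N + 1), ae_inj Λ (N + 1)] with X hX hX'
    have h1 := avg_remove hv hV0 X (hB' X hX hX')
    have h2 := sum_exp_ge (Finset.univ : Finset (Fin (N + 1)))
      (fun p => -β * energy v ((N : ℝ) / V) Λ (fun j => X (p.succAbove j)))
      (-β * (energy v ((N + 1 : ℝ) / V) Λ X + c)) (by
        rw [← Finset.mul_sum]
        have h3 := mul_le_mul_of_nonneg_left h1 hβ.le
        simp only [Finset.card_univ, Fintype.card_fin]
        push_cast
        linarith)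
    refine le_trans (le_of_eq ?_) h2
    simp only [Finset.card_univ, Fintype.card_fin]
    push_cast
    rw [← Real.exp_add]
    congr 2
    ring
  rw [integral_const_mul, integral_const_mul, integral_finsetSum _ fun p _ => hpi p] at hmain
  simp_rw [hp] at hmain
  rw [Finset.sum_const, nsmul_eq_mul] at hmain
  simp only [Finset.card_univ, Fintype.card_fin] at hmain
  push_cast at hmain
  exact le_of_mul_le_mul_left hmain hN

/-- Changing the container. -/
theorem energy_mismatch {v : E → ℝ} {Λ Λ' : Set E} (hsub : Λ ⊆ Λ')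
    (hm : MeasurableSet Λ) (hm' : MeasurableSet Λ') (hfin' : volume Λ' ≠ ⊤) {V V' : ℝ}
    (hV : (volume Λ).toReal = V) (hV' : (volume Λ').toReal = V') (hV0 : 0 < V) {N : ℕ} {S : ℝ}
    (hS : ∀ x, phi Λ' x ≤ S) (X : Fin N → E) :
    energy v ((N : ℝ) / V') Λ' X ≤ energy v ((N : ℝ) / V) Λ X +
      2 * (N : ℝ) ^ 2 * (V' - V) * S / V ^ 2 := by
  have hfin : volume Λ ≠ ⊤ := ne_top_of_le_ne_top hfin' (measure_mono hsub)
  have hVV : V ≤ V' := by
    rw [← hV, ← hV']
    exact ENNReal.toReal_mono hfin' (measure_mono hsub)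
  have hV0' : 0 < V' := hV0.trans_le hVV
  have hS0 : 0 ≤ S := (phi_nonneg Λ' 0).trans (hS 0)
  have hA : (volume (Λ' \ Λ)).toReal = V' - V := by
    rw [measure_sdiff hsub hm.nullMeasurableSet hfin,
      ENNReal.toReal_sub_of_le (measure_mono hsub) hfin', hV, hV']
  have hAfin : volume (Λ' \ Λ) ≠ ⊤ := ne_top_of_le_ne_top hfin' (measure_mono sdiff_subset)
  -- E0' ≤ E0 + 2 (V' - V) S
  have hphi : ∀ x, phi Λ' x = phi Λ x + phi (Λ' \ Λ) x := by
    intro x
    unfold phi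
    rw [← setIntegral_union disjoint_sdiff_right (hm'.diff hm) (integrableOn_inv hfin x)
      (integrableOn_inv hAfin x), union_sdiff_cancel hsub]
  have hE1 : ∫ x in Λ', phi Λ' x = (∫ x in Λ, phi Λ' x) + ∫ x in Λ' \ Λ, phi Λ' x := by
    rw [← setIntegral_union disjoint_sdiff_right (hm'.diff hm) (phi_integrableOn hfin' hfin)
      (phi_integrableOn hfin' hAfin), union_sdiff_cancel hsub]
  have hE2 : ∫ x in Λ, phi Λ' x = (∫ x in Λ, phi Λ x) + ∫ x in Λ, phi (Λ' \ Λ) x := by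
    simp_rw [hphi]
    exact integral_add (phi_integrableOn hfin hfin) (phi_integrableOn hAfin hfin)
  have hE3 : ∫ x in Λ, phi (Λ' \ Λ) x ≤ (V' - V) * S := by
    rw [int_phi_comm hAfin hfin]
    calc ∫ x in Λ' \ Λ, phi Λ x ≤ ∫ _x in Λ' \ Λ, S :=
          setIntegral_mono (phi_integrableOn hfin hAfin) (integrableOn_const hAfin)
            fun x => (phi_mono hsub hfin' x).trans (hS x)
      _ = (V' - V) * S := by
          rw [setIntegral_const, smul_eq_mul, ← hA]
          rfl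
  have hE4 : ∫ x in Λ' \ Λ, phi Λ' x ≤ (V' - V) * S := by
    calc ∫ x in Λ' \ Λ, phi Λ' x ≤ ∫ _x in Λ' \ Λ, S :=
          setIntegral_mono (phi_integrableOn hfin' hAfin) (integrableOn_const hAfin)
            fun x => hS x
      _ = (V' - V) * S := by
          rw [setIntegral_const, smul_eq_mul, ← hA]
          rfl
  rw [energy_eq, energy_eq]
  have hE0 := int_phi_nonneg Λ Λ
  have hE0' := int_phi_nonneg Λ' Λ'
  set E0 := ∫ x in Λ, phi Λ x
  set E0' := ∫ x in Λ', phi Λ' x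
  set P := pairSum (ww v) X
  have hEE : E0' ≤ E0 + 2 * (V' - V) * S := by linarith
  have hn : (0 : ℝ) ≤ N := Nat.cast_nonneg N
  -- one-body terms
  have hone : (N : ℝ) / V * ∑ i, phi Λ (X i) - (N : ℝ) / V' * ∑ i, phi Λ' (X i) ≤
      (N : ℝ) ^ 2 * (V' - V) * S / V ^ 2 := by
    have h1 : ∑ i, phi Λ (X i) ≤ ∑ i, phi Λ' (X i) :=
      Finset.sum_le_sum fun i _ => phi_mono hsub hfin' _
    have h2 : ∑ i, phi Λ (X i) ≤ N * S := by
      calc ∑ i, phi Λ (X i) ≤ ∑ _i : Fin N, S :=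
            Finset.sum_le_sum fun i _ => (phi_mono hsub hfin' _).trans (hS _)
        _ = N * S := by simp
    have h3 : (N : ℝ) / V' * ∑ i, phi Λ (X i) ≤ (N : ℝ) / V' * ∑ i, phi Λ' (X i) :=
      mul_le_mul_of_nonneg_left h1 (by positivity)
    have h4 : (N : ℝ) / V * ∑ i, phi Λ (X i) - (N : ℝ) / V' * ∑ i, phi Λ (X i) =
        (N : ℝ) * (V' - V) / (V * V') * ∑ i, phi Λ (X i) := by
      field_simp
    have h5 : (N : ℝ) * (V' - V) / (V * V') * ∑ i, phi Λ (X i) ≤
        (N : ℝ) * (V' - V) / (V * V') * (N * S) :=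
      mul_le_mul_of_nonneg_left h2 (by
        have : 0 ≤ V' - V := by linarith
        positivity)
    have h6 : (N : ℝ) * (V' - V) / (V * V') * (N * S) ≤ (N : ℝ) * (V' - V) / (V * V) * (N * S) := by
      have : 0 ≤ V' - V := by linarith
      refine mul_le_mul_of_nonneg_right ?_ (by positivity)
      refine div_le_div_of_nonneg_left (by positivity) (by positivity) ?_
      exact mul_le_mul_of_nonneg_left hVV hV0.le
    have h7 : (N : ℝ) * (V' - V) / (V * V) * (N * S) = (N : ℝ) ^ 2 * (V' - V) * S / V ^ 2 := by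
      field_simp
    linarith
  have hself : ((N : ℝ) / V') ^ 2 / 2 * E0' - ((N : ℝ) / V) ^ 2 / 2 * E0 ≤
      (N : ℝ) ^ 2 * (V' - V) * S / V ^ 2 := by
    have h1 : ((N : ℝ) / V') ^ 2 / 2 * E0' ≤ ((N : ℝ) / V) ^ 2 / 2 * E0' := by
      refine mul_le_mul_of_nonneg_right ?_ hE0'
      have : (N : ℝ) / V' ≤ (N : ℝ) / V := div_le_div_of_nonneg_left hn hV0 hVV
      have h0 : 0 ≤ (N : ℝ) / V' := by positivity
      gcongr
    have h2 : ((N : ℝ) / V) ^ 2 / 2 * E0' ≤ ((N : ℝ) / V) ^ 2 / 2 * (E0 + 2 * (V' - V) * S) :=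
      mul_le_mul_of_nonneg_left hEE (by positivity)
    have h3 : ((N : ℝ) / V) ^ 2 / 2 * (E0 + 2 * (V' - V) * S) =
        ((N : ℝ) / V) ^ 2 / 2 * E0 + (N : ℝ) ^ 2 * (V' - V) * S / V ^ 2 := by
      field_simp
    linarith
  have hfinal : 2 * (N : ℝ) ^ 2 * (V' - V) * S / V ^ 2 =
      (N : ℝ) ^ 2 * (V' - V) * S / V ^ 2 + (N : ℝ) ^ 2 * (V' - V) * S / V ^ 2 := by ring
  rw [hfinal]
  linarith

end Q62.JL
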