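import Pool.Agent.Q62.JL.Part2

set_option autoImplicit false

namespace Q62.JL

open MeasureTheory Set Filter Topology

theorem pm_eq (Λ : Set E) (N : ℕ) :
    pm Λ N = (Measure.pi fun _ : Fin N => (volume : Measure E)).restrict
      (Set.univ.pi fun _ => Λ) := by
  unfold pm
  rw [← Measure.restrict_pi_pi]

theorem pm_mono_integral {Λ Λ' : Set E} (hsub : Λ ⊆ Λ') {N : ℕ} {F : (Fin N → E) → ℝ}
    (hF : Integrable F (pm Λ' N)) (h0 : ∀ X, 0 ≤ F X) :
    ∫ X, F X ∂(pm Λ N) ≤ ∫ X, F X ∂(pm Λ' N) := by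
  rw [pm_eq] at hF
  rw [pm_eq, pm_eq]
  refine setIntegral_mono_set hF (Filter.Eventually.of_forall h0)
    (LE.le.eventuallyLE ?_)
  exact Set.pi_mono fun _ _ => hsub

theorem II_le_of {v : E → ℝ} {β : ℝ} (hβ : 0 < β) {Λ Λ' : Set E} {ρ ρ' c : ℝ} {N : ℕ}
    (hint : Integrable (fun X : Fin N → E => Real.exp (-β * energy v ρ Λ X)) (pm Λ N))
    (hint'' : Integrable (fun X : Fin N → E => Real.exp (-β * energy v ρ' Λ' X)) (pm Λ N))
    (h : ∀ X : Fin N → E, energy v ρ' Λ' X ≤ energy v ρ Λ X + c) :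
    Real.exp (-β * c) * II v β ρ Λ N ≤
      ∫ X, Real.exp (-β * energy v ρ' Λ' X) ∂(pm Λ N) := by
  unfold II
  rw [← integral_const_mul]
  refine integral_mono (hint.const_mul _) hint'' fun X => ?_
  simp only
  rw [← Real.exp_add]
  apply Real.exp_le_exp.mpr
  have h1 := mul_le_mul_of_nonneg_left (h X) hβ.le
  linarith

theorem II_mismatch {v : E → ℝ} (hvm : AEStronglyMeasurable v volume) {β : ℝ} (hβ : 0 < β)
    {Λ Λ' : Set E} (hsub : Λ ⊆ Λ')
    (hm : MeasurableSet Λ) (hm' : MeasurableSet Λ') (hfin' : volume Λ' ≠ ⊤) {V V' : ℝ}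
    (hV : (volume Λ).toReal = V) (hV' : (volume Λ').toReal = V') (hV0 : 0 < V) {N : ℕ} {S : ℝ}
    (hS : ∀ x, phi Λ' x ≤ S) {b b' : ℝ}
    (hB : ∀ X : Fin N → E, (∀ i, X i ∈ Λ) → Function.Injective X →
      -b ≤ energy v ((N : ℝ) / V) Λ X)
    (hB' : ∀ X : Fin N → E, (∀ i, X i ∈ Λ') → Function.Injective X →
      -b' ≤ energy v ((N : ℝ) / V') Λ' X) :
    Real.exp (-β * (2 * (N : ℝ) ^ 2 * (V' - V) * S / V ^ 2)) * II v β ((N : ℝ) / V) Λ N ≤
      II v β ((N : ℝ) / V') Λ' N := by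
  have hfin : volume Λ ≠ ⊤ := ne_top_of_le_ne_top hfin' (measure_mono hsub)
  have hint := integrable_exp hvm hβ hm hfin hB
  have hint' := integrable_exp hvm hβ hm' hfin' hB'
  have hb : ∀ X : Fin N → E, (∀ i, X i ∈ Λ) → Function.Injective X → |Real.exp (-β * energy v ((N : ℝ) / V') Λ' X)| ≤
      Real.exp (β * b') := by
    intro X hX hX'
    rw [abs_of_pos (Real.exp_pos _)]
    apply Real.exp_le_exp.mpr
    have := mul_le_mul_of_nonneg_left (hB' X (fun i => hsub (hX i)) hX') hβ.le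
    linarith
  have hint'' : Integrable (fun X : Fin N → E => Real.exp (-β * energy v ((N : ℝ) / V') Λ' X))
      (pm Λ N) := integrable_of_bdd hm hfin (aesm_exp_energy' hvm β _ Λ Λ' N) hb
  have h1 := II_le_of hβ hint hint'' fun X =>
    energy_mismatch (v := v) hsub hm hm' hfin' hV hV' hV0 hS X
  refine h1.trans ?_
  exact pm_mono_integral hsub hint' fun X => (Real.exp_pos _).le

end Q62.JL
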