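import Pool.Agent.Q62.JL.Comb

set_option autoImplicit false

namespace Q62.JL

open MeasureTheory Set Filter Topology

/-- The kernel cut off at distance `L`. -/
noncomputable def ker (L : ℝ) (y : E) : ℝ := (Metric.ball (0 : E) L).indicator (fun y => ‖y‖⁻¹) y

/-- Its integral. -/
noncomputable def CK (L : ℝ) : ℝ := ∫ y, ker L y

theorem ker_nonneg (L : ℝ) (y : E) : 0 ≤ ker L y :=
  Set.indicator_nonneg (fun _ _ => by positivity) y

theorem CK_nonneg (L : ℝ) : 0 ≤ CK L := integral_nonneg (ker_nonneg L)

theorem measurable_inv_norm : Measurable (fun y : E => ‖y‖⁻¹) := measurable_norm.inv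

theorem ker_integrable (L : ℝ) : Integrable (ker L) := by
  unfold ker
  rw [integrable_indicator_iff measurableSet_ball]
  have h3 : Module.finrank ℝ E = 3 := by simp [E]
  refine integrableOn_ball_of_norm_le_rpow (C := 1) (α := 1) (by rw [h3]; norm_num)
    (by rw [h3]; norm_num) ?_ measurable_inv_norm.aestronglyMeasurable
  refine Filter.Eventually.of_forall fun x => ?_
  rw [Real.rpow_neg_one, one_mul, norm_inv, norm_norm]

theorem inv_le_ker {L : ℝ} (hL : 0 < L) (y : E) : ‖y‖⁻¹ ≤ ker L y + L⁻¹ := by
  unfold ker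
  by_cases h : y ∈ Metric.ball (0 : E) L
  · rw [Set.indicator_of_mem h]
    have : 0 ≤ L⁻¹ := by positivity
    linarith
  · rw [Set.indicator_of_notMem h, zero_add]
    rw [mem_ball_zero_iff, not_lt] at h
    exact inv_anti₀ hL h

theorem integrableOn_inv {Λ : Set E} (hΛ : volume Λ ≠ ⊤) (x : E) :
    IntegrableOn (fun y => ‖x - y‖⁻¹) Λ := by
  have h1 : Integrable (fun y => ker 1 (x - y)) := (ker_integrable 1).comp_sub_left x
  have h2 : IntegrableOn (fun y => ker 1 (x - y) + 1) Λ :=
    h1.integrableOn.add (integrableOn_const hΛ)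
  refine Integrable.mono' h2 ?_ ?_
  · exact ((measurable_inv_norm).comp (measurable_const.sub measurable_id)).aestronglyMeasurable
  · refine Filter.Eventually.of_forall fun y => ?_
    have := inv_le_ker one_pos (x - y)
    rw [inv_one] at this
    rwa [norm_inv, norm_norm]

theorem phi_le {Λ : Set E} (hΛ : volume Λ ≠ ⊤) {L : ℝ} (hL : 0 < L) (x : E) :
    phi Λ x ≤ CK L + (volume Λ).toReal / L := by
  unfold phi
  have h1 : Integrable (fun y => ker L (x - y)) := (ker_integrable L).comp_sub_left x
  calc ∫ y in Λ, ‖x - y‖⁻¹ ≤ ∫ y in Λ, (ker L (x - y) + L⁻¹) := by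
        refine setIntegral_mono (integrableOn_inv hΛ x)
          (h1.integrableOn.add (integrableOn_const hΛ)) fun y => inv_le_ker hL (x - y)
    _ = (∫ y in Λ, ker L (x - y)) + ∫ _y in Λ, L⁻¹ :=
        integral_add h1.integrableOn (integrableOn_const hΛ)
    _ ≤ CK L + (volume Λ).toReal / L := by
        refine add_le_add ?_ (le_of_eq ?_)
        · refine (setIntegral_le_integral h1
            (Filter.Eventually.of_forall fun y => ker_nonneg L _)).trans (le_of_eq ?_)
          rw [integral_sub_left_eq_self (fun y => ker L y) volume x]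
          rfl
        · rw [setIntegral_const, smul_eq_mul, div_eq_mul_inv]
          rfl

theorem phi_nonneg (Λ : Set E) (x : E) : 0 ≤ phi Λ x :=
  integral_nonneg fun _ => by positivity

theorem phi_symm (Λ : Set E) (x : E) : ∫ y in Λ, ‖y - x‖⁻¹ = phi Λ x := by
  unfold phi
  refine integral_congr_ae (Filter.Eventually.of_forall fun y => ?_)
  simp only
  rw [norm_sub_rev]

theorem measurable_phi (Λ : Set E) : Measurable (phi Λ) := by
  have h1 : StronglyMeasurable (Function.uncurry fun x y : E => ‖x - y‖⁻¹) := by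
    refine Measurable.stronglyMeasurable ?_
    exact measurable_inv_norm.comp (measurable_fst.sub measurable_snd)
  exact (h1.integral_prod_right (ν := (volume : Measure E).restrict Λ)).measurable

theorem phi_mono {Λ Λ' : Set E} (h : Λ ⊆ Λ') (hΛ' : volume Λ' ≠ ⊤) (x : E) :
    phi Λ x ≤ phi Λ' x := by
  unfold phi
  exact setIntegral_mono_set (integrableOn_inv hΛ' x)
    (Filter.Eventually.of_forall fun _ => by positivity) h.eventuallyLE

theorem phi_integrableOn {Λ A : Set E} (hΛ : volume Λ ≠ ⊤) (hA : volume A ≠ ⊤) :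
    IntegrableOn (phi Λ) A := by
  refine Integrable.mono' (g := fun _ => CK 1 + (volume Λ).toReal / 1) (integrableOn_const hA)
    (measurable_phi Λ).aestronglyMeasurable ?_
  refine Filter.Eventually.of_forall fun x => ?_
  rw [Real.norm_eq_abs, abs_of_nonneg (phi_nonneg Λ x)]
  exact phi_le hΛ one_pos x

theorem int_phi_le {Λ A : Set E} (hΛ : volume Λ ≠ ⊤) (hA : volume A ≠ ⊤) {L : ℝ} (hL : 0 < L) :
    ∫ x in A, phi Λ x ≤ (volume A).toReal * (CK L + (volume Λ).toReal / L) := by
  calc ∫ x in A, phi Λ x ≤ ∫ _x in A, (CK L + (volume Λ).toReal / L) :=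
        setIntegral_mono (phi_integrableOn hΛ hA) (integrableOn_const hA)
          fun x => phi_le hΛ hL x
    _ = _ := by
        rw [setIntegral_const, smul_eq_mul]
        rfl

theorem int_phi_nonneg (Λ A : Set E) : 0 ≤ ∫ x in A, phi Λ x :=
  integral_nonneg fun x => phi_nonneg Λ x

/-- Fubini: the two potentials are in duality. -/
theorem int_phi_comm {Λ A : Set E} (hΛ : volume Λ ≠ ⊤) (hA : volume A ≠ ⊤) :
    ∫ x in A, phi Λ x = ∫ y in Λ, phi A y := by
  unfold phi
  have hS : AEStronglyMeasurable (Function.uncurry fun x y : E => ‖x - y‖⁻¹)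
      (((volume : Measure E).restrict A).prod ((volume : Measure E).restrict Λ)) := by
    refine Measurable.aestronglyMeasurable ?_
    exact measurable_inv_norm.comp (measurable_fst.sub measurable_snd)
  have hI : Integrable (Function.uncurry fun x y : E => ‖x - y‖⁻¹)
      (((volume : Measure E).restrict A).prod ((volume : Measure E).restrict Λ)) := by
    rw [integrable_prod_iff hS]
    refine ⟨Filter.Eventually.of_forall fun x => integrableOn_inv hΛ x, ?_⟩
    have := phi_integrableOn hΛ hA
    refine this.congr (Filter.Eventually.of_forall fun x => ?_)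
    unfold phi
    refine integral_congr_ae (Filter.Eventually.of_forall fun y => ?_)
    simp
  rw [integral_integral_swap hI]
  refine integral_congr_ae (Filter.Eventually.of_forall fun y => ?_)
  refine integral_congr_ae (Filter.Eventually.of_forall fun x => ?_)
  simp only
  rw [norm_sub_rev]

end Q62.JL
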